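import Pool.Agent.Helper28_AHH.KGeo
import Pool.Agent.Helper61_AHH.Num

/-!
# AND2B, field kil: the potential of the processed clusters, the first resolvent
-/

set_option autoImplicit false

open scoped BigOperators NNReal

noncomputable section

namespace Pool.Agent.AHH.H38

open Pool.Agent.BED (Tor)
open Pool.Agent.AND2B (Ev)
open Pool.Agent.AND.Num
open Pool.Agent.AND2B.H28 (KH)

variable {d : ℕ} {a e c C : ℝ}

/-- the potential is at most two, if the clock is small -/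
theorem phi_le {V : AND2B.Env d} (hV : V.Pre a) {n : ℕ} (hn : n ≤ V.N)
    (hs : 12 * ((d : ℝ) + 1) * V.sg (n + 1) ≤ 1) (P : Finset V.X) (x : V.X) :
    Phi V.G ((bud V).tau n) n P x ≤ 2 := by
  have h0 : 0 < V.sg (n + 1) := H61.sg_pos hV (n + 1)
  refine H61.Phi_le_Gt d V.μ V.J V.N V.l V.r n _ (Real.rpow_nonneg h0.le _) ?_ P x
  have h1 : (2 ^ V.r n : ℝ) ≤ V.sg (n + 1) ^ (-(4 : ℝ)) := hV.sc.rup n hn
  have h2 : (12 * ((d : ℝ) + 1) * 2 ^ V.r n) ^ d ≤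
      (12 * ((d : ℝ) + 1) * V.sg (n + 1) ^ (-(4 : ℝ))) ^ d := by gcongr
  have h3 : V.sg (n + 1) ^ (5 * (d : ℝ)) = (V.sg (n + 1) ^ (5 : ℝ)) ^ d := by
    rw [Real.rpow_mul h0.le, Real.rpow_natCast]
  have h4 : V.sg (n + 1) ^ (5 : ℝ) * (12 * ((d : ℝ) + 1) * V.sg (n + 1) ^ (-(4 : ℝ))) =
      12 * ((d : ℝ) + 1) * V.sg (n + 1) := by
    have : V.sg (n + 1) ^ (5 : ℝ) * V.sg (n + 1) ^ (-(4 : ℝ)) = V.sg (n + 1) := by
      rw [← Real.rpow_add h0]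
      norm_num
    calc _ = 12 * ((d : ℝ) + 1) * (V.sg (n + 1) ^ (5 : ℝ) * V.sg (n + 1) ^ (-(4 : ℝ))) := by ring
      _ = _ := by rw [this]
  show V.sg (n + 1) ^ (5 * (d : ℝ)) * (12 * ((d : ℝ) + 1) * 2 ^ V.r n) ^ d ≤ 1
  calc V.sg (n + 1) ^ (5 * (d : ℝ)) * (12 * ((d : ℝ) + 1) * 2 ^ V.r n) ^ d
      ≤ V.sg (n + 1) ^ (5 * (d : ℝ)) *
        (12 * ((d : ℝ) + 1) * V.sg (n + 1) ^ (-(4 : ℝ))) ^ d :=
        mul_le_mul_of_nonneg_left h2 (Real.rpow_nonneg h0.le _)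
    _ = (12 * ((d : ℝ) + 1) * V.sg (n + 1)) ^ d := by rw [h3, ← mul_pow, h4]
    _ ≤ 1 := pow_le_one₀ (by positivity) hs

/-- (b1) -/
theorem ev_phi : Ev d a e c C fun V => ∀ n ≤ V.N, ∀ (P : Finset V.X) (x : V.X),
    Phi V.G ((bud V).tau n) n P x ≤ 2 := by
  refine ((H61.ev_good (d := d) (a := a) (es := e) (c := c) (C := C)).and
    (H61.ev_small (fun _ _ _ _ _ s => 12 * ((d : ℝ) + 1) * s ≤ 1) fun _ _ _ _ _ _ _ _ _ => ?_)).imp
    fun V hV n hn P x => ?_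
  · refine (small_le (1 / (12 * ((d : ℝ) + 1))) (by positivity)).mono fun s _ h => ?_
    rwa [le_div_iff₀ (by positivity), mul_comm] at h
  · have hP : V.Pre a := hV.1.toPre
    exact phi_le hP hn (hV.2 _ (H61.sg_pos hP _) (H61.sg_le hP _)) P x

/-- (b2) -/
theorem g0_le {V : AND2B.Env d} (hV : V.Good a e c C) (x y : V.X) :
    ‖(toE V c C).G₀ x y‖ ≤ C := hV.st.hG x y

theorem ev_g0 : Ev d a e c C fun V => ∀ x y : V.X, ‖(toE V c C).G₀ x y‖ ≤ C :=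
  H61.ev_good.imp fun _ hV x y => g0_le hV x y

end Pool.Agent.AHH.H38
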